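import Mathlib

set_option autoImplicit false

namespace Pool.Agent.H67Z.Rd

/-- end of level `m` -/
def v : ℕ → ℕ
  | 0 => 0
  | m + 1 => (m + 1) * (2 * v m + 4)

/-- spacing of the blocks of level `m` -/
def a (m : ℕ) : ℕ := 2 * v (m - 1) + 4

theorem v_eq (m : ℕ) : v m = m * a m := by
  cases m <;> simp [v, a]

theorem v_succ_ge (m : ℕ) : 2 * v m + 4 ≤ v (m + 1) := by
  rw [v]
  exact Nat.le_mul_of_pos_left _ (by omega)

theorem v_mono : Monotone v := monotone_nat_of_le_succ fun m => by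
  have := v_succ_ge m
  omega

theorem le_v (m : ℕ) : m ≤ v m := by
  induction m with
  | zero => omega
  | succ m ih => have := v_succ_ge m; omega

theorem v_lt_a {s m : ℕ} (h : s < m) : 2 * v s + 4 ≤ a m := by
  have : v s ≤ v (m - 1) := v_mono (by omega)
  unfold a
  omega

theorem a_pos (m : ℕ) : 0 < a m := by unfold a; omega

/-- the level of a position -/
noncomputable def lvl (j : ℕ) : ℕ := Nat.find (⟨j, le_v j⟩ : ∃ m, j ≤ v m)

theorem le_v_lvl (j : ℕ) : j ≤ v (lvl j) := Nat.find_spec (⟨j, le_v j⟩ : ∃ m, j ≤ v m)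

theorem lvl_le {j m : ℕ} (h : j ≤ v m) : lvl j ≤ m := Nat.find_min' _ h

theorem lt_lvl {j m : ℕ} (h : v m < j) : m < lvl j := by
  by_contra h'
  have := v_mono (not_lt.1 h')
  have := le_v_lvl j
  omega

theorem lvl_eq {j m : ℕ} (h1 : v (m - 1) < j) (h2 : j ≤ v m) : lvl j = m := by
  have := lvl_le h2
  have := lt_lvl h1
  omega

theorem v_lt_of_lt_lvl {j m : ℕ} (h : m < lvl j) : v m < j := by
  by_contra h'
  have := lvl_le (not_lt.1 h')
  omega

/-- working positions -/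
def isW (j : ℕ) : Prop := 1 ≤ j / a (lvl j) ∧ j % a (lvl j) ≤ v (lvl j - j / a (lvl j))

open Classical in
/-- start of the block -/
noncomputable def st (j : ℕ) : ℕ := if isW j then j / a (lvl j) * a (lvl j) else j

/-- type of the block -/
noncomputable def ty (j : ℕ) : ℕ := lvl j - j / a (lvl j)

theorem blk_le {m r i : ℕ} (h1 : 1 ≤ r) (h2 : r ≤ m) (h3 : i ≤ v (m - r)) :
    v (m - 1) < r * a m ∧ r * a m + i ≤ v m ∧ i < a m := by
  have h4 : a m ≤ r * a m := Nat.le_mul_of_pos_left _ h1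
  have h5 : 2 * v (m - r) + 4 ≤ a m := v_lt_a (by omega)
  have h6 : 2 * v (m - 1) + 4 ≤ a m := v_lt_a (by omega)
  refine ⟨by omega, ?_, by omega⟩
  rcases h2.eq_or_lt with rfl | h
  · rw [Nat.sub_self] at h3
    have : v 0 = 0 := rfl
    rw [v_eq r]
    omega
  · have : (r + 1) * a m ≤ m * a m := Nat.mul_le_mul_right _ h
    rw [v_eq m]
    rw [add_mul] at this
    omega

theorem spec {m r i : ℕ} (h1 : 1 ≤ r) (h2 : r ≤ m) (h3 : i ≤ v (m - r)) :
    isW (r * a m + i) ∧ st (r * a m + i) = r * a m ∧ ty (r * a m + i) = m - r ∧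
      lvl (r * a m + i) = m := by
  obtain ⟨b1, b2, b3⟩ := blk_le h1 h2 h3
  have hl : lvl (r * a m + i) = m := lvl_eq (by omega) b2
  have hd : (r * a m + i) / a m = r := by
    rw [add_comm, Nat.add_mul_div_right _ _ (a_pos m), Nat.div_eq_of_lt b3, zero_add]
  have hm : (r * a m + i) % a m = i := by
    rw [add_comm, Nat.add_mul_mod_self_right, Nat.mod_eq_of_lt b3]
  have hW : isW (r * a m + i) := by
    unfold isW
    rw [hl, hd, hm]
    exact ⟨h1, h3⟩
  refine ⟨hW, ?_, ?_, hl⟩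
  · rw [st, if_pos hW, hl, hd]
  · rw [ty, hl, hd]

theorem isW_elim {j : ℕ} (h : isW j) :
    ∃ m r i, 1 ≤ r ∧ r ≤ m ∧ i ≤ v (m - r) ∧ j = r * a m + i := by
  refine ⟨lvl j, j / a (lvl j), j % a (lvl j), h.1, ?_, h.2, ?_⟩
  · have h1 := le_v_lvl j
    rw [v_eq] at h1
    exact Nat.div_le_of_le_mul (by rw [mul_comm]; exact h1)
  · rw [mul_comm]
    exact (Nat.div_add_mod j _).symm

theorem st_of_not {j : ℕ} (h : ¬ isW j) : st j = j := if_neg h

theorem W_facts {j : ℕ} (h : isW j) : st j ≤ j ∧ j - st j ≤ v (ty j) ∧ 2 * v (ty j) + 4 ≤ st j ∧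
    ty j < lvl j ∧ v (lvl j - 1) < st j ∧ st j = (lvl j - ty j) * a (lvl j) := by
  obtain ⟨m, r, i, h1, h2, h3, rfl⟩ := isW_elim h
  obtain ⟨-, e1, e2, e3⟩ := spec h1 h2 h3
  obtain ⟨b1, b2, b3⟩ := blk_le h1 h2 h3
  have h4 : a m ≤ r * a m := Nat.le_mul_of_pos_left _ h1
  have h5 : 2 * v (m - r) + 4 ≤ a m := v_lt_a (by omega)
  rw [e1, e2, e3]
  refine ⟨by omega, by omega, by omega, by omega, b1, ?_⟩
  congr 1
  omega

theorem st_le (j : ℕ) : st j ≤ j := by
  by_cases h : isW j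
  · exact (W_facts h).1
  · rw [st_of_not h]

theorem le_two_st (j : ℕ) : j ≤ 2 * st j := by
  by_cases h : isW j
  · have := W_facts h
    omega
  · rw [st_of_not h]; omega

theorem W_same {j i : ℕ} (h : isW j) (hi : i ≤ v (ty j)) :
    isW (st j + i) ∧ st (st j + i) = st j ∧ ty (st j + i) = ty j := by
  obtain ⟨m, r, i', h1, h2, h3, rfl⟩ := isW_elim h
  obtain ⟨-, e1, e2, -⟩ := spec h1 h2 h3
  rw [e2] at hi
  rw [e1, e2]
  obtain ⟨f1, f2, f3, -⟩ := spec h1 h2 hi
  exact ⟨f1, f2, f3⟩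

theorem lt_st_of_v_lt {m t : ℕ} (h : v m < t) : v m < st t := by
  by_cases hW : isW t
  · have h1 := (W_facts hW).2.2.2.2.1
    have h2 := lt_lvl h
    have h3 : v m ≤ v (lvl t - 1) := v_mono (by omega)
    omega
  · rwa [st_of_not hW]

/-- a later position outside the block of `j` lies in a later block -/
theorem lt_st {j t : ℕ} (hjt : j < t) (h : ¬ isW j ∨ st j + v (ty j) < t) : j < st t := by
  by_contra hcon
  have hW : isW t := by
    by_contra h'
    rw [st_of_not h'] at hcon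
    omega
  have h1 := W_facts hW
  obtain ⟨e1, e2, e3⟩ := W_same (i := j - st t) hW (by omega)
  have e : st t + (j - st t) = j := by omega
  rw [e] at e1 e2 e3
  rcases h with h | h
  · exact h e1
  · rw [e2, e3] at h
    omega

theorem not_isW_zero : ¬ isW 0 := fun h => by
  have := W_facts h
  omega

end Pool.Agent.H67Z.Rd
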