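import Pool.Agent.H67Z.Rd.Proj

set_option autoImplicit false

namespace Pool.Agent.H67Z.Rd

open Polynomial Finset

theorem approx {x : L1} (hx0 : x ≠ 0) (hx1 : ‖x‖ ≤ 1) {n : ℕ} (hn : 1 ≤ n) :
    ∃ S : ℂ[X], ‖aeval T S x - ι 1‖ ≤ 5 * (1 / n) := by
  obtain ⟨m, hm, i, hi, hψ⟩ := lower_bound hx0 n
  have hN := NN_le n m
  obtain ⟨q, ε, w, h1, h2, h3, h4, h5⟩ := Cc_spec (v m) (W (v m)) (one_le_W _) (NN n m) hN
    (yy (v m + 1) m x) (l1_yy_le m hx1) ⟨i, hi, by rw [coeff_yy x (by omega)]; exact hψ⟩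
  set C := Cc (v m) (W (v m)) with hC
  set H := h (v m + 1) with hH
  set j := (m - n + 1) * a m with hj
  obtain ⟨s1, s2, s3, -⟩ := spec (m := m) (r := m - n + 1) (i := 0) (by omega) (by omega)
    (Nat.zero_le _)
  obtain ⟨-, b2, -⟩ := blk_le (m := m) (r := m - n + 1) (i := 0) (by omega) (by omega)
    (Nat.zero_le _)
  rw [add_zero, ← hj] at s1 s2 s3 b2
  have hjN : j = a m + NN n m := by rw [hj, NN]; ring
  set c := cc j with hc
  have hc0 : 0 < c := cc_pos j
  have hn0 : (0 : ℝ) < n := by exact_mod_cast hn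
  have hH1 : 1 ≤ H := one_le_h _
  have hW0 := W_pos (v m)
  have hC1 : 1 ≤ C := one_le_Cc _ _
  have hcW : c * (W (v m))⁻¹ ≤ 1 / n := by
    refine (cc_div_W b2).trans (one_div_le_one_div_of_le hn0 ?_)
    have := le_v m
    exact_mod_cast (by omega : n ≤ v m + 1)
  have hCH : C * H⁻¹ ≤ (W (v m))⁻¹ := by
    rw [← div_eq_mul_inv, ← one_div, div_le_div_iff₀ (by linarith) hW0, one_mul, mul_comm]
    exact WC_le_h (v m)
  set z := x - R (v m + 1) m x with hz
  let L : ℂ[X] →ₗ[ℂ] L1 :=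
    { toFun := fun r => aeval T (X ^ a m * r) z
      map_add' := fun r r' => by rw [mul_add, map_add, _root_.add_apply]
      map_smul' := fun b r => by rw [mul_smul_comm, map_smul, _root_.smul_apply, RingHom.id_apply] }
  have hL : ∀ r, L r = aeval T (X ^ a m * r) z := fun r => rfl
  have t1 : ‖ι ((c : ℂ) • X ^ j) - ι 1‖ ≤ 1 / n := by
    have e1 : (μ j : ℂ) • (ι ((c : ℂ) • X ^ j) - ι 1) = e j := by
      rw [← ι_f, f_W s1, d_W s1, s2, Nat.sub_self, pow_zero, ← map_sub, ← map_smul, smul_sub,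
        smul_smul, Complex.ofReal_mul]
    have e2 : μ j * ‖ι ((c : ℂ) • X ^ j) - ι 1‖ = 1 := by
      rw [← norm_rsmul (μ_pos j).le, e1, norm_e]
    rw [eq_one_div_of_mul_eq_one_right e2]
    refine one_div_le_one_div_of_le hn0 ?_
    rw [μ, s2, s3, Nat.sub_self, zero_add, pow_one, M]
    refine le_trans ?_ (le_h _)
    have := le_v (m - (m - n + 1))
    exact_mod_cast (by omega : n ≤ v (m - (m - n + 1)) + 1)
  have t2 : ‖(c : ℂ) • ι (X ^ a m * ε)‖ ≤ 1 / n := by
    rw [norm_rsmul hc0.le]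
    exact (mul_le_mul_of_nonneg_left ((norm_ι_le _).trans ((l1_X_pow_mul _ _).trans h3))
      hc0.le).trans hcW
  have t3 : ‖(c : ℂ) • ι (X ^ a m * w)‖ ≤ 1 / n := by
    rw [norm_rsmul hc0.le]
    refine (mul_le_mul_of_nonneg_left ?_ hc0.le).trans hcW
    refine (norm_map_le ι _ (B := H⁻¹) fun t ht => ?_).trans (le_trans ?_ hCH)
    · have h6 : v m < t := by
        by_contra h7
        exact mem_support_iff.1 ht (X_pow_dvd_iff.1 (h5.mul_left _) t (by omega))
      have h7 := lt_st_of_v_lt h6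
      refine (norm_u_le t).trans (inv_anti₀ (by linarith) ?_)
      have := h_pow_le (p := v m + 1) (q := st t) (k := 1) (l := st t + 4) h7 (by omega)
      rwa [pow_one] at this
    · exact mul_le_mul_of_nonneg_right ((l1_X_pow_mul _ _).trans h4)
        (inv_nonneg.2 (by linarith))
  have t4 : ‖(c : ℂ) • L q‖ ≤ 2 * (1 / n) := by
    rw [norm_rsmul hc0.le]
    have h6 : ‖L q‖ ≤ l1 q * (2 * H⁻¹) := by
      refine norm_map_le L q fun t _ => ?_
      rw [hL, ← pow_add, map_pow, aeval_X]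
      refine (tail_bound (by omega) x).trans ?_
      have h7 : (H ^ 2)⁻¹ ≤ H⁻¹ := inv_anti₀ (by linarith) (le_self_pow₀ hH1 (by omega))
      have h8 : 0 < (H ^ 2)⁻¹ := by positivity
      nlinarith
    have h7 : l1 q * (2 * H⁻¹) ≤ C * (2 * H⁻¹) :=
      mul_le_mul_of_nonneg_right h2 (by positivity)
    have h8 : ‖L q‖ ≤ 2 * (W (v m))⁻¹ := by linarith
    nlinarith
  refine ⟨(c : ℂ) • (X ^ a m * q), ?_⟩
  have key : aeval T ((c : ℂ) • (X ^ a m * q)) x - ι 1 =
      (ι ((c : ℂ) • X ^ j) - ι 1) + (c : ℂ) • ι (X ^ a m * ε) + (c : ℂ) • ι (X ^ a m * w) +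
        (c : ℂ) • L q := by
    have e1 : x = ι (yy (v m + 1) m x) + z := by rw [hz, R_apply, add_sub_cancel]
    have e2 : aeval T (X ^ a m * q) x =
        ι (X ^ j) + ι (X ^ a m * ε) + ι (X ^ a m * w) + L q := by
      conv_lhs => rw [e1]
      rw [map_add, aeval_ι, hL, mul_assoc, h1, mul_add, mul_add, map_add, map_add, ← pow_add,
        ← hjN]
    rw [map_smul, _root_.smul_apply, e2, map_smul, smul_add, smul_add, smul_add]
    abel
  rw [key]
  refine (norm_add_le _ _).trans ?_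
  have := norm_add₃_le (a := ι ((c : ℂ) • X ^ j) - ι 1) (b := (c : ℂ) • ι (X ^ a m * ε))
    (c := (c : ℂ) • ι (X ^ a m * w))
  linarith

theorem kill_one {x : L1} (hx0 : x ≠ 0) (g : L1 →L[ℂ] ℂ) (hg : ∀ k, g ((T ^ k) x) = 0) :
    g (ι 1) = 0 := by
  have hx : 0 < ‖x‖ := norm_pos_iff.2 hx0
  set x' : L1 := ((‖x‖⁻¹ : ℝ) : ℂ) • x with hx'
  have h1 : ‖x'‖ = 1 := by
    rw [hx', norm_rsmul (inv_pos.2 hx).le, inv_mul_cancel₀ hx.ne']
  have h2 : x' ≠ 0 := by
    rw [← norm_ne_zero_iff, h1]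
    exact one_ne_zero
  have h3 : ∀ S : ℂ[X], g (aeval T S x') = 0 := by
    intro S
    induction S using Polynomial.induction_on' with
    | add p q hp hq => rw [map_add, _root_.add_apply, map_add, hp, hq, add_zero]
    | monomial n c =>
      rw [← C_mul_X_pow_eq_monomial, ← smul_eq_C_mul, map_smul (aeval T), map_pow, aeval_X,
        _root_.smul_apply, map_smul, hx', map_smul, map_smul, hg, smul_zero, smul_zero]
  refine norm_eq_zero.1 (eq_zero_of_le_div (K := ‖g‖ * 5) (n := 0) (norm_nonneg _) fun n hn => ?_)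
  obtain ⟨S, hS⟩ := approx h2 h1.le (n := n) hn
  have h4 : g (ι 1) = -g (aeval T S x' - ι 1) := by rw [map_sub, h3, zero_sub, neg_neg]
  rw [h4, norm_neg, mul_assoc]
  exact (g.le_opNorm _).trans (mul_le_mul_of_nonneg_left hS (norm_nonneg _))

/-- every nonzero vector is cyclic -/
theorem cyclic {x : L1} (hx0 : x ≠ 0) (g : L1 →L[ℂ] ℂ) (hg : ∀ k, g ((T ^ k) x) = 0) :
    g = 0 := by
  have h1 : ∀ l, g (ι (X ^ l)) = 0 := by
    intro l
    have := kill_one hx0 (g ∘L T ^ l) fun k => by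
      rw [ContinuousLinearMap.comp_apply, ← mul_apply_eq_comp, ← pow_add, hg]
    rwa [ContinuousLinearMap.comp_apply, T_pow_ι, mul_one] at this
  refine ext_col fun j => ?_
  rw [← ι_f, as_sum_smul (f j), map_sum, map_sum]
  simp [h1]

end Pool.Agent.H67Z.Rd
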