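import Mathlib

set_option autoImplicit false

namespace Pool.Agent.H67Z.Rd

open Finset Filter Topology

/-- the space of summable complex sequences -/
abbrev L1 : Type := lp (fun _ : ℕ => ℂ) 1

/-- unit vectors -/
noncomputable def e (j : ℕ) : L1 := lp.single 1 j (1 : ℂ)

theorem e_apply (j t : ℕ) : e j t = if t = j then 1 else 0 := by
  rw [e, lp.single_apply, Pi.single_apply]

theorem norm_e (j : ℕ) : ‖e j‖ = 1 := by
  rw [e, lp.norm_single (by norm_num), norm_one]

theorem hasSum_e (x : L1) : HasSum (fun j => x j • e j) x := by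
  have h := lp.hasSum_single (E := fun _ : ℕ => ℂ) (p := 1) (by simp) x
  convert h using 2 with j
  rw [e, ← lp.single_smul, smul_eq_mul, mul_one]

theorem hasSum_norm (x : L1) : HasSum (fun j => ‖x j‖) ‖x‖ := by
  simpa using lp.hasSum_norm (E := fun _ : ℕ => ℂ) (p := 1) (by simp) x

theorem norm_apply_le (x : L1) (t : ℕ) : ‖x t‖ ≤ ‖x‖ :=
  lp.norm_apply_le_norm (by simp) x t

variable {Y : Type} [NormedAddCommGroup Y] [NormedSpace ℂ Y]

theorem hasSum_col (S : L1 →L[ℂ] Y) (x : L1) : HasSum (fun j => x j • S (e j)) (S x) := by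
  simpa using (hasSum_e x).mapL S

theorem norm_le_of_col (S : L1 →L[ℂ] Y) {B : ℝ} (hB : ∀ j, ‖S (e j)‖ ≤ B) (x : L1) :
    ‖S x‖ ≤ B * ‖x‖ := by
  refine (hasSum_col S x).norm_le_of_bounded ((hasSum_norm x).mul_left B) fun j => ?_
  rw [norm_smul, mul_comm]
  exact mul_le_mul_of_nonneg_right (hB j) (norm_nonneg _)

theorem ext_col {S S' : L1 →L[ℂ] Y} (h : ∀ j, S (e j) = S' (e j)) : S = S' := by
  ext1 x
  refine (hasSum_col S x).unique ?_
  simp only [h]
  exact hasSum_col S' x

theorem exists_col [CompleteSpace Y] (b : ℕ → Y) {B : ℝ} (hB : ∀ j, ‖b j‖ ≤ B) :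
    ∃ S : L1 →L[ℂ] Y, ∀ j, S (e j) = b j := by
  have hb : ∀ (x : L1) j, ‖x j • b j‖ ≤ B * ‖x j‖ := fun x j => by
    rw [norm_smul, mul_comm]
    exact mul_le_mul_of_nonneg_right (hB j) (norm_nonneg _)
  have hs : ∀ x : L1, Summable fun j => x j • b j := fun x =>
    Summable.of_norm_bounded ((hasSum_norm x).mul_left B).summable (hb x)
  let S₀ : L1 →ₗ[ℂ] Y :=
    { toFun := fun x => ∑' j, x j • b j
      map_add' := fun x y => by
        rw [← (hs x).tsum_add (hs y)]
        simp [add_smul]
      map_smul' := fun c x => by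
        rw [RingHom.id_apply, ← (hs x).tsum_const_smul c]
        simp [mul_smul] }
  refine ⟨S₀.mkContinuous B fun x => ?_, fun j => ?_⟩
  · exact (hs x).hasSum.norm_le_of_bounded ((hasSum_norm x).mul_left B) (hb x)
  · show ∑' t, e j t • b t = b j
    rw [tsum_eq_single j]
    · simp [e_apply]
    · intro t ht
      simp [e_apply, ht]

theorem separable_L1 : TopologicalSpace.SeparableSpace L1 := by
  rw [← TopologicalSpace.isSeparable_univ_iff]
  have h1 : TopologicalSpace.IsSeparable (Submodule.span ℂ (Set.range e) : Set L1) :=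
    (Set.countable_range e).isSeparable.span
  refine h1.closure.mono fun x _ => ?_
  refine isClosed_closure.mem_of_tendsto (hasSum_e x) (Eventually.of_forall fun s => ?_)
  exact subset_closure (Submodule.sum_mem _ fun j _ =>
    Submodule.smul_mem _ _ (Submodule.subset_span ⟨j, rfl⟩))

/-- coordinate functionals -/
noncomputable def ev (t : ℕ) : L1 →L[ℂ] ℂ :=
  LinearMap.mkContinuous
    { toFun := fun x => x t
      map_add' := fun x y => by simp
      map_smul' := fun c x => by simp } 1 fun x => by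
        rw [one_mul]
        exact norm_apply_le x t

theorem ev_apply (t : ℕ) (x : L1) : ev t x = x t := rfl

theorem not_finite_L1 : ¬ FiniteDimensional ℂ L1 := by
  intro h
  refine Module.Finite.not_linearIndependent_of_infinite (R := ℂ) e ?_
  refine LinearIndependent.of_pairwise_dual_eq_zero_one e (fun t => (ev t : L1 →ₗ[ℂ] ℂ)) ?_ ?_
  · intro i j hij
    simp [ev_apply, e_apply, hij]
  · intro i
    simp [ev_apply, e_apply]

end Pool.Agent.H67Z.Rd
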