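import Mathlib

set_option autoImplicit false

namespace Pool.Agent.H67Z.Rd

open Metric Nat

/-- A zero-free entire function of minimal exponential type is constant. -/
theorem entire_const (G : ℂ → ℂ) (hG : Differentiable ℂ G) (h0 : G 0 = 1) (hz : ∀ z, G z ≠ 0)
    (hb : ∀ ε : ℝ, 0 < ε → ∃ K : ℝ, ∀ z, ‖G z‖ ≤ K * Real.exp (ε * ‖z‖)) (z : ℂ) : G z = 1 := by
  have h1 : Differentiable ℂ fun w => deriv G w / G w :=
    hG.deriv.div hG hz
  obtain ⟨H, hH0, hH⟩ := h1.isExactOn_univ.with_val_at 0 0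
  have hH' : ∀ w, HasDerivAt H (deriv G w / G w) w := fun w => hH w (Set.mem_univ w)
  have hHd : Differentiable ℂ H := fun w => (hH' w).differentiableAt
  have h2 : ∀ w, HasDerivAt (fun w => G w * Complex.exp (-H w)) 0 w := by
    intro w
    have h3 : HasDerivAt (fun w => G w * Complex.exp (-H w))
        (deriv G w * Complex.exp (-H w) + G w * (Complex.exp (-H w) * -(deriv G w / G w))) w :=
      (hG w).hasDerivAt.mul (hH' w).neg.cexp
    have h4 : deriv G w * Complex.exp (-H w) +
        G w * (Complex.exp (-H w) * -(deriv G w / G w)) = 0 := by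
      have := hz w
      field_simp
      ring
    rwa [h4] at h3
  have h3 : ∀ w, G w = Complex.exp (H w) := by
    intro w
    have h4 := is_const_of_deriv_eq_zero (f := fun w => G w * Complex.exp (-H w))
      (fun w => (h2 w).differentiableAt) (fun w => (h2 w).deriv) w 0
    simp only [h0, hH0, neg_zero, Complex.exp_zero, mul_one] at h4
    rw [Complex.exp_neg] at h4
    exact (mul_inv_eq_one₀ (Complex.exp_ne_zero _)).1 h4
  have h4 : ∀ ε : ℝ, 0 < ε → ‖H z‖ ≤ 8 * ‖z‖ * ε := by
    intro ε hε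
    obtain ⟨K, hK⟩ := hb ε hε
    have hK1 : 1 ≤ K := by simpa [h0] using hK 0
    have hl : 0 ≤ Real.log K := Real.log_nonneg hK1
    set R := 2 * ‖z‖ + Real.log K / ε + 1 with hR
    have hd : 0 ≤ Real.log K / ε := by positivity
    have hn := norm_nonneg z
    have hR0 : 0 < R := by linarith
    have hR1 : Real.log K ≤ ε * R := by
      have : ε * (Real.log K / ε) = Real.log K := by field_simp
      rw [hR, mul_add, mul_add, this]
      nlinarith
    have h5 := Complex.borelCaratheodory_zero (f := H) (M := 2 * (ε * R)) (R := R) (z := z)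
      (by positivity) hHd.differentiableOn (fun w hw => ?_) hR0
      (mem_ball_zero_iff.2 (by linarith)) hH0
    · refine h5.trans ?_
      rw [div_le_iff₀ (by linarith)]
      have : 0 ≤ ‖z‖ * ε * (R - 2 * ‖z‖) := by
        have : 0 ≤ R - 2 * ‖z‖ := by linarith
        positivity
      nlinarith
    · have h6 := hK w
      rw [h3, Complex.norm_exp, ← Real.exp_log (by linarith : 0 < K), ← Real.exp_add,
        Real.exp_le_exp] at h6
      have h7 : ε * ‖w‖ ≤ ε * R := mul_le_mul_of_nonneg_left (mem_ball_zero_iff.1 hw).le hε.le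
      show (H w).re ≤ 2 * (ε * R)
      linarith
  have h5 : H z = 0 := by
    rw [← norm_le_zero_iff]
    refine le_of_forall_pos_le_add fun δ hδ => ?_
    have hn := norm_nonneg z
    refine (h4 (δ / (8 * ‖z‖ + 1)) (by positivity)).trans ?_
    rw [zero_add, ← mul_div_assoc, div_le_iff₀ (by positivity)]
    nlinarith
  rw [h3, h5, Complex.exp_zero]

theorem term_le {r ε : ℝ} (hr : 0 ≤ r) (hε : 0 < ε) (n : ℕ) :
    ((n ! : ℝ) ^ 2)⁻¹ * r ^ n ≤ Real.exp ε⁻¹ * ((ε * r) ^ n / n !) := by
  have h1 := Real.pow_div_factorial_le_exp ε⁻¹ (inv_pos.2 hε).le n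
  refine le_trans (le_of_eq ?_) (mul_le_mul_of_nonneg_right h1 (by positivity))
  rw [mul_pow, inv_pow]
  field_simp

theorem hasSum_rexp (r : ℝ) : HasSum (fun n : ℕ => r ^ n / n !) (Real.exp r) := by
  rw [Real.exp_eq_exp_ℝ]
  exact NormedSpace.expSeries_div_hasSum_exp r

theorem summable_term {r : ℝ} (hr : 0 ≤ r) : Summable fun n : ℕ => ((n ! : ℝ) ^ 2)⁻¹ * r ^ n :=
  Summable.of_nonneg_of_le (fun n => by positivity) (term_le hr one_pos)
    ((hasSum_rexp _).summable.mul_left _)

theorem coeff_zero (c : ℕ → ℂ) {K : ℝ} (hK : 0 ≤ K) (hc : ∀ n, ‖c n‖ ≤ K * ((n ! : ℝ) ^ 2)⁻¹)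
    (hz : ∀ z : ℂ, z * ∑' n, c n • z ^ n ≠ 1) : c = 0 := by
  set p := FormalMultilinearSeries.ofScalars ℂ c with hp
  have hb : ∀ (r : ℝ), 0 ≤ r → ∀ n, ‖c n‖ * r ^ n ≤ K * (((n ! : ℝ) ^ 2)⁻¹ * r ^ n) := by
    intro r hr n
    rw [← mul_assoc]
    exact mul_le_mul_of_nonneg_right (hc n) (by positivity)
  have hrad : p.radius = ⊤ := by
    refine p.radius_eq_top_of_summable_norm fun r => ?_
    simp only [hp, FormalMultilinearSeries.ofScalars_norm]
    exact Summable.of_nonneg_of_le (fun n => by positivity) (hb r r.2)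
      ((summable_term r.2).mul_left K)
  have hball := p.hasFPowerSeriesOnBall (by rw [hrad]; simp)
  have hsum : ∀ z, p.sum z = ∑' n, c n • z ^ n := fun z =>
    FormalMultilinearSeries.ofScalars_sum_eq c z
  have hd : Differentiable ℂ p.sum := by
    have := hball.differentiableOn
    rw [hrad, Metric.eball_top_eq_univ] at this
    exact differentiableOn_univ.1 this
  have hG := entire_const (fun z => 1 - z * p.sum z) (by fun_prop) (by simp)
    (fun z => by rw [hsum]; exact sub_ne_zero.2 (hz z).symm) ?_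
  · have h1 : p.sum = 0 := by
      refine Continuous.ext_on (dense_compl_singleton (0 : ℂ)) hd.continuous continuous_const
        fun z hz0 => ?_
      have h2 : z * p.sum z = 0 := by simpa using hG z
      exact (mul_eq_zero.1 h2).resolve_left hz0
    have h2 := hball.hasFPowerSeriesAt
    rw [h1] at h2
    exact (FormalMultilinearSeries.ofScalars_series_eq_zero ℂ).1 h2.eq_zero
  · intro ε hε
    have hδ : 0 < ε / 2 := by positivity
    set δ := ε / 2 with hδe
    refine ⟨1 + δ⁻¹ * (K * Real.exp δ⁻¹), fun z => ?_⟩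
    have hn := norm_nonneg z
    have h1 : ‖p.sum z‖ ≤ K * (Real.exp δ⁻¹ * Real.exp (δ * ‖z‖)) := by
      rw [hsum]
      refine tsum_of_norm_bounded (((hasSum_rexp (δ * ‖z‖)).mul_left _).mul_left K) fun n => ?_
      rw [norm_smul, norm_pow]
      exact (hb _ hn n).trans (mul_le_mul_of_nonneg_left (term_le hn hδ n) hK)
    have h2 : ‖z‖ ≤ δ⁻¹ * Real.exp (δ * ‖z‖) := by
      rw [le_inv_mul_iff₀ hδ]
      linarith [Real.add_one_le_exp (δ * ‖z‖)]
    have h3 : Real.exp (ε * ‖z‖) = Real.exp (δ * ‖z‖) * Real.exp (δ * ‖z‖) := by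
      rw [← Real.exp_add, hδe]
      ring_nf
    have h4 : 1 ≤ Real.exp (ε * ‖z‖) := Real.one_le_exp (by positivity)
    refine (norm_sub_le _ _).trans ?_
    rw [norm_one, norm_mul, add_mul, one_mul]
    refine add_le_add h4 ((mul_le_mul h2 h1 (norm_nonneg _) (by positivity)).trans (le_of_eq ?_))
    rw [h3]
    ring

end Pool.Agent.H67Z.Rd
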