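import Pool.Agent.H67Z.Rd.Cyc
import Pool.Agent.H67Z.Rd.Ent

set_option autoImplicit false

namespace Pool.Agent.H67Z.Rd

open Nat

theorem spectrum_T : spectrum ℂ T = {0} := by
  have hnt : Nontrivial (L1 →L[ℂ] L1) := by
    refine ⟨1, 0, fun hc => ?_⟩
    have h1 : e 0 = 0 := DFunLike.congr_fun hc (e 0)
    have h2 := norm_e 0
    rw [h1, norm_zero] at h2
    exact zero_ne_one h2
  have key : ∀ c ∈ spectrum ℂ T, c = 0 := by
    intro c hc
    by_contra h0
    have hc0 : 0 < ‖c‖ := norm_pos_iff.2 h0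
    have h1 : ∀ k : ℕ, (1 : ℝ) / 2 ≤ ((k ! : ℝ) ^ 2)⁻¹ * ‖c‖⁻¹ ^ k := by
      intro k
      have h2 := spectrum.norm_le_norm_mul_of_mem (spectrum.pow_mem_pow T k hc)
      have h3 : ‖T ^ k‖ ≤ 2 * ((k ! : ℝ) ^ 2)⁻¹ :=
        ContinuousLinearMap.opNorm_le_bound _ (by positivity) (norm_T_pow k)
      have h4 : ‖(1 : L1 →L[ℂ] L1)‖ ≤ 1 := ContinuousLinearMap.norm_id_le
      have h5 : ‖c‖ ^ k ≤ 2 * ((k ! : ℝ) ^ 2)⁻¹ := by
        rw [← norm_pow]
        exact h2.trans ((mul_le_of_le_one_right (norm_nonneg _) h4).trans h3)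
      rw [inv_pow, ← div_eq_mul_inv, le_div_iff₀ (pow_pos hc0 k)]
      linarith
    have h2 := (summable_term (inv_pos.2 hc0).le).tendsto_atTop_zero
    have h3 := ge_of_tendsto' h2 h1
    norm_num at h3
  obtain ⟨c, hc⟩ := spectrum.nonempty T
  exact Set.eq_singleton_iff_unique_mem.2 ⟨key c hc ▸ hc, key⟩

theorem no_rank_one (F : L1 →L[ℂ] L1)
    (hF : Module.finrank ℂ (LinearMap.range (F : L1 →ₗ[ℂ] L1)) = 1) :
    spectrum ℂ (T + F) ≠ {0} := by
  intro hs
  obtain ⟨⟨x, w, hw⟩, hx0, hx⟩ := finrank_eq_one_iff'.1 hF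
  have hx1 : x ≠ 0 := fun hc => hx0 (Subtype.ext hc)
  obtain ⟨t, ht⟩ : ∃ t, x t ≠ 0 := by
    by_contra hc
    push Not at hc
    exact hx1 (lp.ext (funext hc))
  set g : L1 →L[ℂ] ℂ := (x t)⁻¹ • (ev t ∘L F) with hg
  have hFg : ∀ y, F y = g y • x := by
    intro y
    obtain ⟨c, hc⟩ := hx ⟨F y, y, rfl⟩
    have h1 : c • x = F y := congrArg Subtype.val hc
    rw [hg, _root_.smul_apply, ContinuousLinearMap.comp_apply, ← h1, map_smul, ev_apply,
      smul_eq_mul, smul_eq_mul, mul_comm c, ← mul_assoc, inv_mul_cancel₀ ht, one_mul]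
  have hc := coeff_zero (fun n => g ((T ^ n) x)) (K := ‖g‖ * (2 * ‖x‖)) (by positivity)
    (fun n => (g.le_opNorm _).trans ((mul_le_mul_of_nonneg_left (norm_T_pow n x)
      (norm_nonneg _)).trans (le_of_eq (by ring)))) ?_
  · have h1 : g = 0 := cyclic hx1 g fun k => congrFun hc k
    have h2 : F w = x := hw
    rw [hFg, h1, _root_.zero_apply, zero_smul] at h2
    exact hx1 h2.symm
  · intro z hz
    have hz0 : z ≠ 0 := by
      rintro rfl
      simp at hz
    have h1 : Summable fun n : ℕ => z ^ n • (T ^ n) x := by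
      refine Summable.of_norm_bounded ((summable_term (norm_nonneg z)).mul_left (2 * ‖x‖))
        fun n => ?_
      rw [norm_smul, norm_pow]
      exact (mul_le_mul_of_nonneg_left (norm_T_pow n x) (by positivity)).trans
        (le_of_eq (by ring))
    set Y := ∑' n : ℕ, z ^ n • (T ^ n) x with hY
    have h2 : g Y = ∑' n, g ((T ^ n) x) • z ^ n := by
      rw [hY, g.map_tsum h1]
      exact tsum_congr fun n => by rw [map_smul, smul_eq_mul, smul_eq_mul, mul_comm]
    have h3 : Y = x + z • T Y := by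
      conv_lhs => rw [hY, h1.tsum_eq_zero_add]
      rw [pow_zero, pow_zero, one_smul, hY, T.map_tsum h1, ← tsum_const_smul'' z]
      congr 1
      refine tsum_congr fun n => ?_
      rw [map_smul, smul_smul, _root_.pow_succ' z, _root_.pow_succ' T, mul_apply_eq_comp]
    rw [← h2] at hz
    have h4 : (algebraMap ℂ (L1 →L[ℂ] L1) z⁻¹ - (T + F)) Y = 0 := by
      have h5 : g Y = z⁻¹ := eq_inv_of_mul_eq_one_right hz
      rw [_root_.sub_apply, _root_.add_apply, hFg, h5, ContinuousLinearMap.algebraMap_apply,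
        sub_eq_zero]
      conv_lhs => rw [h3]
      rw [smul_add, smul_smul, inv_mul_cancel₀ hz0, one_smul, add_comm]
    have h5 : z⁻¹ ∉ spectrum ℂ (T + F) := by
      rw [hs]
      exact inv_ne_zero hz0
    obtain ⟨U, hU⟩ := spectrum.notMem_iff.1 h5
    have h6 : Y = 0 := by
      have h7 : ((U⁻¹ : (L1 →L[ℂ] L1)ˣ) : L1 →L[ℂ] L1) * U = 1 := U.inv_mul
      have h8 := DFunLike.congr_fun h7 Y
      rw [mul_apply_eq_comp, hU, h4, map_zero] at h8
      exact h8.symm
    rw [h6, map_zero, mul_zero] at hz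
    exact zero_ne_one hz

end Pool.Agent.H67Z.Rd
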