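import Pool.Agent.H67Z.Rd.Par
import Pool.Agent.H67Z.Rd.Ell

set_option autoImplicit false

namespace Pool.Agent.H67Z.Rd

open Polynomial Finset Nat

open Classical in
/-- the polynomials that become the unit vectors -/
noncomputable def f (j : ℕ) : ℂ[X] :=
  if isW j then (d j : ℂ) • X ^ j - (μ j : ℂ) • X ^ (j - st j) else (d j : ℂ) • X ^ j

theorem f_W {j : ℕ} (hj : isW j) : f j = (d j : ℂ) • X ^ j - (μ j : ℂ) • X ^ (j - st j) :=
  if_pos hj

theorem f_not {j : ℕ} (hj : ¬ isW j) : f j = (d j : ℂ) • X ^ j := if_neg hj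

theorem d_ne (j : ℕ) : (d j : ℂ) ≠ 0 := by exact_mod_cast (d_pos j).ne'

theorem degree_f (j : ℕ) : (f j).degree = j := by
  have h1 : ((d j : ℂ) • (X ^ j : ℂ[X])).degree = j := by
    rw [smul_eq_C_mul, degree_C_mul (d_ne j), degree_X_pow]
  by_cases hj : isW j
  · rw [f_W hj, degree_sub_eq_left_of_degree_lt, h1]
    rw [h1]
    refine lt_of_le_of_lt (degree_smul_le _ _) ?_
    rw [degree_X_pow]
    have := W_facts hj
    exact_mod_cast (by omega : j - st j < j)
  · rw [f_not hj, h1]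

/-- the sequence `f` -/
noncomputable def fs : Polynomial.Sequence ℂ := ⟨f, degree_f⟩

/-- the basis `f` -/
noncomputable def fb : Module.Basis ℕ ℂ ℂ[X] :=
  fs.basis fun i => (leadingCoeff_ne_zero.2 (fs.ne_zero i)).isUnit

theorem fb_eq (j : ℕ) : fb j = f j := Polynomial.Sequence.basis_eq_self _ _ _

/-- the embedding of the polynomials in the sequence space -/
noncomputable def ι : ℂ[X] →ₗ[ℂ] L1 := fb.constr ℂ e

theorem ι_f (j : ℕ) : ι (f j) = e j := by
  rw [← fb_eq, ι, Module.Basis.constr_basis]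

theorem u_W {j : ℕ} (hj : isW j) :
    (d j : ℂ) • ι (X ^ j) = e j + (μ j : ℂ) • ι (X ^ (j - st j)) := by
  rw [← ι_f, f_W hj, map_sub, map_smul, map_smul, sub_add_cancel]

theorem u_not {j : ℕ} (hj : ¬ isW j) : (d j : ℂ) • ι (X ^ j) = e j := by
  rw [← ι_f, f_not hj, map_smul]

theorem norm_rsmul {c : ℝ} (hc : 0 ≤ c) (x : L1) : ‖(c : ℂ) • x‖ = c * ‖x‖ := by
  rw [norm_smul, Complex.norm_real, Real.norm_of_nonneg hc]

theorem μ_pos (j : ℕ) : 0 < μ j := lt_of_lt_of_le one_pos (one_le_μ j)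

theorem norm_u_le (t : ℕ) : ‖ι (X ^ t)‖ ≤ (h (st t) ^ (st t + 4))⁻¹ := by
  induction t using Nat.strong_induction_on with
  | _ t ih =>
    have hp : 0 < h (st t) ^ (st t + 4) := pow_pos (h_pos _) _
    by_cases ht : isW t
    · have h1 := W_facts ht
      have h2 : ‖ι (X ^ (t - st t))‖ ≤ 1 :=
        (ih (t - st t) (by omega)).trans (inv_le_one_of_one_le₀ (one_le_pow₀ (one_le_h _)))
      have h3 : d t * ‖ι (X ^ t)‖ ≤ 2 * μ t := by
        rw [← norm_rsmul (d_pos t).le, u_W ht]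
        refine (norm_add_le _ _).trans ?_
        rw [norm_e, norm_rsmul (μ_pos t).le]
        have := one_le_μ t
        nlinarith
      rw [d_W ht, cc] at h3
      rw [← one_div, le_div_iff₀ hp]
      have h4 := μ_pos t
      nlinarith
    · have h3 : d t * ‖ι (X ^ t)‖ = 1 := by
        rw [← norm_rsmul (d_pos t).le, u_not ht, norm_e]
      rw [d_not ht] at h3
      rw [st_of_not ht, eq_inv_of_mul_eq_one_right h3]

theorem norm_u_le_one (t : ℕ) : ‖ι (X ^ t)‖ ≤ 1 :=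
  (norm_u_le t).trans (inv_le_one_of_one_le₀ (one_le_pow₀ (one_le_h _)))

theorem u_supp (i : ℕ) : ∀ t, i < t → ι (X ^ i) t = 0 := by
  induction i using Nat.strong_induction_on with
  | _ i ih =>
    intro t ht
    have h0 : ev t (e i) = 0 := by
      rw [ev_apply, e_apply, if_neg (by omega)]
    have key : (d i : ℂ) * ev t (ι (X ^ i)) = 0 := by
      rw [← smul_eq_mul, ← map_smul]
      by_cases hi : isW i
      · have h1 := W_facts hi
        have h2 : ev t (ι (X ^ (i - st i))) = 0 := ih (i - st i) (by omega) t (by omega)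
        rw [u_W hi, map_add, map_smul, h0, h2, smul_zero, add_zero]
      · rw [u_not hi, h0]
    exact (mul_eq_zero.1 key).resolve_left (d_ne i)

theorem far_d {j t : ℕ} (hjt : j < st t) : ‖ι ((d j : ℂ) • X ^ t)‖ ≤ (h (st t) ^ 2)⁻¹ := by
  rw [map_smul, norm_rsmul (d_pos j).le]
  have h0 := h_pos (st t)
  calc d j * ‖ι (X ^ t)‖ ≤ h (st t) * (h (st t) ^ (st t + 4))⁻¹ :=
        mul_le_mul (d_le_h hjt) (norm_u_le t) (norm_nonneg _) h0.le
    _ = (h (st t) ^ (st t + 3))⁻¹ := by field_simp; ring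
    _ ≤ _ := inv_anti₀ (pow_pos h0 _) (pow_le_pow_right₀ (one_le_h _) (by omega))

theorem far_μ {j t : ℕ} (hj : isW j) (hjt : v (ty j) < st t) :
    ‖ι ((μ j : ℂ) • X ^ t)‖ ≤ (h (st t) ^ 2)⁻¹ := by
  rw [map_smul, norm_rsmul (μ_pos j).le]
  have h0 := h_pos (st t)
  calc μ j * ‖ι (X ^ t)‖ ≤ h (st t) ^ st t * (h (st t) ^ (st t + 4))⁻¹ :=
        mul_le_mul (μ_le hj hjt) (norm_u_le t) (norm_nonneg _) (pow_pos h0 _).le
    _ = (h (st t) ^ 4)⁻¹ := by field_simp; ring
    _ ≤ _ := inv_anti₀ (pow_pos h0 _) (pow_le_pow_right₀ (one_le_h _) (by omega))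

theorem shift_in {j k : ℕ} (hj : isW j) (hk : j + k ≤ st j + v (ty j)) :
    ‖ι (X ^ k * f j)‖ = (M (ty j) ^ k)⁻¹ := by
  have h1 := W_facts hj
  obtain ⟨e1, e2, e3⟩ := W_same (i := j - st j + k) hj (by omega)
  have e0 : st j + (j - st j + k) = j + k := by omega
  rw [e0] at e1 e2 e3
  have hM : 0 < M (ty j) ^ k := pow_pos (lt_of_lt_of_le one_pos (one_le_M _)) _
  have hμ : μ (j + k) = M (ty j) ^ k * μ j := by
    rw [μ, μ, e2, e3, ← pow_add]
    congr 1
    omega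
  have hf : f (j + k) = ((M (ty j) ^ k : ℝ) : ℂ) • (X ^ k * f j) := by
    rw [f_W e1, f_W hj, d_W e1, d_W hj, hμ, e2, show j + k - st j = k + (j - st j) by omega]
    simp only [smul_eq_C_mul, Complex.ofReal_mul, map_mul]
    ring
  have h2 : M (ty j) ^ k * ‖ι (X ^ k * f j)‖ = 1 := by
    rw [← norm_rsmul hM.le, ← map_smul, ← hf, ι_f, norm_e]
  exact eq_inv_of_mul_eq_one_right h2

theorem shift_bound {j k : ℕ} {B : ℝ} (hk : 1 ≤ k)
    (hA : isW j → k ≤ v (ty j) → (M (ty j) ^ k)⁻¹ ≤ B)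
    (hB : ∀ p, j < p → k ≤ 2 * p → (h p ^ 2)⁻¹ ≤ B)
    (hC : isW j → ∀ p, v (ty j) < p → k ≤ 2 * p → (h p ^ 2)⁻¹ ≤ B) :
    ‖ι (X ^ k * f j)‖ ≤ 2 * B := by
  have hB0 : 0 ≤ B :=
    le_trans (inv_nonneg.2 (sq_nonneg _)) (hB (j + k) (by omega) (by omega))
  have hfar : (¬ isW j ∨ st j + v (ty j) < j + k) → ‖ι ((d j : ℂ) • X ^ (j + k))‖ ≤ B := by
    intro hc
    have h1 := lt_st (show j < j + k by omega) hc
    have h2 := le_two_st (j + k)
    exact (far_d h1).trans (hB _ h1 (by omega))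
  by_cases hj : isW j
  · have h1 := W_facts hj
    by_cases hc : j + k ≤ st j + v (ty j)
    · rw [shift_in hj hc]
      have := hA hj (by omega)
      linarith
    · have h2 := hfar (Or.inr (by omega))
      have h3 : v (ty j) < st (j - st j + k) := lt_st_of_v_lt (by omega)
      have h4 := le_two_st (j - st j + k)
      have h5 := (far_μ hj h3).trans (hC hj _ h3 (by omega))
      have h6 : X ^ k * f j =
          (d j : ℂ) • X ^ (j + k) - (μ j : ℂ) • X ^ (j - st j + k) := by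
        rw [f_W hj]
        simp only [smul_eq_C_mul]
        ring
      rw [h6, map_sub]
      refine (norm_sub_le _ _).trans ?_
      linarith
  · have h2 := hfar (Or.inl hj)
    have h6 : X ^ k * f j = (d j : ℂ) • X ^ (j + k) := by
      rw [f_not hj]
      simp only [smul_eq_C_mul]
      ring
    rw [h6]
    linarith

theorem shift_fact (j k : ℕ) : ‖ι (X ^ k * f j)‖ ≤ 2 * ((k ! : ℝ) ^ 2)⁻¹ := by
  rcases Nat.eq_zero_or_pos k with rfl | hk
  · simp [ι_f, norm_e]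
  have h0 : (0 : ℝ) < (k ! : ℝ) ^ 2 := by positivity
  have h1 : ∀ p, k ≤ 2 * p → ∀ l, 1 ≤ l → (h p ^ l)⁻¹ ≤ ((k ! : ℝ) ^ 2)⁻¹ := fun p hp l hl =>
    inv_anti₀ h0 ((fact_le_h hp).trans (le_self_pow₀ (one_le_h p) (by omega)))
  exact shift_bound hk (fun _ hk' => h1 _ (by omega) k hk)
    (fun p _ hp => h1 p hp 2 (by omega)) fun _ p _ hp => h1 p hp 2 (by omega)

theorem exists_T : ∃ T : L1 →L[ℂ] L1, ∀ j, T (e j) = ι (X ^ 1 * f j) :=
  exists_col _ fun j => shift_fact j 1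

/-- the operator -/
noncomputable def T : L1 →L[ℂ] L1 := Classical.choose exists_T

theorem T_ι (p : ℂ[X]) : T (ι p) = ι (X * p) := by
  have : (T : L1 →ₗ[ℂ] L1) ∘ₗ ι = ι ∘ₗ LinearMap.mulLeft ℂ X := by
    refine fb.ext fun j => ?_
    simp only [fb_eq, LinearMap.comp_apply, ι_f, LinearMap.mulLeft_apply]
    have : T (e j) = ι (X ^ 1 * f j) := Classical.choose_spec exists_T j
    rw [pow_one] at this
    exact this
  exact LinearMap.congr_fun this p

theorem T_pow_ι (k : ℕ) (p : ℂ[X]) : (T ^ k) (ι p) = ι (X ^ k * p) := by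
  induction k with
  | zero => simp
  | succ k ih =>
    rw [_root_.pow_succ', mul_apply_eq_comp, ih, T_ι, ← mul_assoc, ← _root_.pow_succ']

theorem norm_T_pow (k : ℕ) (x : L1) : ‖(T ^ k) x‖ ≤ 2 * ((k ! : ℝ) ^ 2)⁻¹ * ‖x‖ :=
  norm_le_of_col _ (fun j => by rw [← ι_f, T_pow_ι]; exact shift_fact j k) x

theorem aeval_ι (q p : ℂ[X]) : (aeval T q) (ι p) = ι (q * p) := by
  induction q using Polynomial.induction_on' with
  | add p q hp hq => rw [map_add, _root_.add_apply, hp, hq, add_mul, map_add]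
  | monomial n c =>
    rw [← C_mul_X_pow_eq_monomial, ← smul_eq_C_mul, map_smul, map_pow, aeval_X,
      _root_.smul_apply, T_pow_ι, smul_mul_assoc, map_smul]

end Pool.Agent.H67Z.Rd
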