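import Pool.Agent.H67Z.Rd.Poly
import Pool.Agent.H67Z.Rd.Comb

set_option autoImplicit false

namespace Pool.Agent.H67Z.Rd

open Polynomial Finset Nat

/-- the constant of the division lemma -/
noncomputable def Cc (p : ℕ) (A : ℝ) : ℝ := Classical.choose (div_lemma' p A)

theorem one_le_Cc (p : ℕ) (A : ℝ) : 1 ≤ Cc p A := (Classical.choose_spec (div_lemma' p A)).1

theorem Cc_spec (p : ℕ) (A : ℝ) (hA : 1 ≤ A) : ∀ n ≤ p, ∀ y : ℂ[X], l1 y ≤ A →
    (∃ i < n, A⁻¹ ≤ ‖y.coeff i‖) →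
      ∃ q e w : ℂ[X], q * y = X ^ n + e + w ∧ l1 q ≤ Cc p A ∧ l1 e ≤ A⁻¹ ∧ l1 w ≤ Cc p A ∧
        X ^ (p + 1) ∣ w := (Classical.choose_spec (div_lemma' p A)).2 hA

/-- auxiliary growth function -/
noncomputable def Wf (p : ℕ) (x : ℝ) : ℝ := (p + 1) * 2 ^ (p + 2) * x ^ (2 * p + 5)

/-- the rapidly increasing sequence -/
noncomputable def h : ℕ → ℝ
  | 0 => 1
  | p + 1 => Wf p (h p) * (Cc p (Wf p (h p)) + 1) + ((2 * p + 2)! : ℝ) ^ 2

/-- the size of everything built up to position `p` -/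
noncomputable def W (p : ℕ) : ℝ := Wf p (h p)

theorem h_succ (p : ℕ) : h (p + 1) = W p * (Cc p (W p) + 1) + ((2 * p + 2)! : ℝ) ^ 2 := rfl

theorem Wf_ge (p : ℕ) {x : ℝ} (hx : 0 ≤ x) : 4 * (p + 1) * x ^ (2 * p + 5) ≤ Wf p x := by
  have h1 : (1 : ℝ) ≤ 2 ^ p := one_le_pow₀ (by norm_num)
  have h2 : 0 ≤ (p + 1 : ℝ) * x ^ (2 * p + 5) := by positivity
  unfold Wf
  rw [pow_add 2]
  nlinarith

theorem one_le_h (p : ℕ) : 1 ≤ h p := by
  induction p with
  | zero => exact le_rfl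
  | succ p ih =>
    rw [h_succ]
    have h1 : 0 ≤ W p := by unfold W Wf; positivity
    have h2 := one_le_Cc p (W p)
    have h3 : (1 : ℝ) ≤ ((2 * p + 2)! : ℝ) := by exact_mod_cast Nat.factorial_pos _
    nlinarith [mul_nonneg h1 (by linarith : 0 ≤ Cc p (W p) + 1)]

theorem h_pos (p : ℕ) : 0 < h p := lt_of_lt_of_le one_pos (one_le_h p)

theorem W_ge (p : ℕ) : 4 * (p + 1) * h p ^ (2 * p + 5) ≤ W p := Wf_ge p (h_pos p).le

theorem pow_le_top (p : ℕ) {k : ℕ} (hk : k ≤ 2 * p + 5) : h p ^ k ≤ h p ^ (2 * p + 5) :=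
  pow_le_pow_right₀ (one_le_h p) hk

theorem one_le_top (p : ℕ) : 1 ≤ h p ^ (2 * p + 5) := one_le_pow₀ (one_le_h p)

theorem W_ge' (p : ℕ) : 4 * h p ^ (2 * p + 5) ≤ W p := by
  have := W_ge p
  have := one_le_top p
  have : (0 : ℝ) ≤ p := Nat.cast_nonneg p
  nlinarith

theorem one_le_W (p : ℕ) : 1 ≤ W p := by
  have := W_ge' p
  have := one_le_top p
  linarith

theorem W_pos (p : ℕ) : 0 < W p := lt_of_lt_of_le one_pos (one_le_W p)

theorem WC_le_h (p : ℕ) : W p * Cc p (W p) ≤ h (p + 1) := by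
  rw [h_succ]
  have := W_pos p
  nlinarith [sq_nonneg ((2 * p + 2)! : ℝ)]

theorem W_le_h (p : ℕ) : W p ≤ h (p + 1) := by
  have := WC_le_h p
  have := W_pos p
  have := one_le_Cc p (W p)
  nlinarith

theorem h_mono : Monotone h := monotone_nat_of_le_succ fun p => by
  have h1 := W_le_h p
  have h2 := W_ge' p
  have h3 := pow_le_top p (k := 1) (by omega)
  have := h_pos p
  rw [pow_one] at h3
  linarith

theorem le_h (p : ℕ) : (p : ℝ) ≤ h p := by
  cases p with
  | zero => simpa using (h_pos 0).le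
  | succ p =>
    have h1 := W_le_h p
    have h2 := W_ge p
    have h3 := one_le_top p
    have : (0 : ℝ) ≤ p := Nat.cast_nonneg p
    push_cast
    nlinarith

theorem fact_le_h {k p : ℕ} (hk : k ≤ 2 * p) : ((k ! : ℝ)) ^ 2 ≤ h p := by
  cases p with
  | zero =>
    obtain rfl : k = 0 := by omega
    simpa using one_le_h 0
  | succ p =>
    rw [h_succ]
    have h1 := W_pos p
    have h2 := one_le_Cc p (W p)
    have h3 : (k ! : ℝ) ≤ ((2 * p + 2)! : ℝ) := by
      exact_mod_cast Nat.factorial_le (by omega)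
    have h4 : (k ! : ℝ) ^ 2 ≤ ((2 * p + 2)! : ℝ) ^ 2 := by gcongr
    nlinarith [mul_nonneg h1.le (by linarith : 0 ≤ Cc p (W p) + 1)]

theorem h_pow_le {p q k l : ℕ} (hpq : p ≤ q) (hkl : k ≤ l) : h p ^ k ≤ h q ^ l :=
  (pow_le_pow_left₀ (h_pos p).le (h_mono hpq) k).trans (pow_le_pow_right₀ (one_le_h q) hkl)

/-- ratio of consecutive weights in a block of type `s` -/
noncomputable def M (s : ℕ) : ℝ := h (v s + 1)

/-- weight inside a block -/
noncomputable def μ (j : ℕ) : ℝ := M (ty j) ^ (j - st j + 1)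

/-- the factor attached to a block starting at `p` -/
noncomputable def cc (p : ℕ) : ℝ := 2 * h p ^ (p + 4)

open Classical in
/-- leading coefficient -/
noncomputable def d (j : ℕ) : ℝ := if isW j then μ j * cc (st j) else h j ^ (j + 4)

theorem one_le_M (s : ℕ) : 1 ≤ M s := one_le_h _

theorem one_le_μ (j : ℕ) : 1 ≤ μ j := one_le_pow₀ (one_le_M _)

theorem cc_pos (p : ℕ) : 0 < cc p := by
  have := h_pos p
  unfold cc
  positivity

theorem d_W {j : ℕ} (hj : isW j) : d j = μ j * cc (st j) := if_pos hj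

theorem d_not {j : ℕ} (hj : ¬ isW j) : d j = h j ^ (j + 4) := if_neg hj

theorem d_pos (j : ℕ) : 0 < d j := by
  by_cases hj : isW j
  · rw [d_W hj]
    exact mul_pos (lt_of_lt_of_le one_pos (one_le_μ j)) (cc_pos _)
  · rw [d_not hj]
    exact pow_pos (h_pos j) _

theorem μ_le {j p : ℕ} (hj : isW j) (hp : v (ty j) < p) : μ j ≤ h p ^ p := by
  have := W_facts hj
  exact h_pow_le hp (by omega)

theorem cc_le {q p : ℕ} (hq : q ≤ p) : cc q ≤ 2 * h p ^ (p + 4) :=
  mul_le_mul_of_nonneg_left (h_pow_le hq (by omega)) (by norm_num)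

theorem d_le {j p : ℕ} (hp : j ≤ p) : d j ≤ 2 * h p ^ (2 * p + 5) := by
  have h0 := one_le_top p
  by_cases hj : isW j
  · rw [d_W hj]
    have h1 := W_facts hj
    have h2 := μ_le (p := p) hj (by omega)
    have h3 := cc_le (q := st j) (p := p) (by omega)
    have h4 := pow_le_top p (k := p + (p + 4)) (by omega)
    calc μ j * cc (st j) ≤ h p ^ p * (2 * h p ^ (p + 4)) :=
          mul_le_mul h2 h3 (cc_pos _).le (pow_pos (h_pos p) _).le
      _ = 2 * h p ^ (p + (p + 4)) := by ring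
      _ ≤ _ := by linarith
  · rw [d_not hj]
    have := h_pow_le (k := j + 4) (l := 2 * p + 5) hp (by omega)
    linarith

theorem d_le_h {j p : ℕ} (hp : j < p) : d j ≤ h p := by
  have h1 := d_le (le_refl j)
  have h2 := W_ge' j
  have h3 := W_le_h j
  have h4 : h (j + 1) ≤ h p := h_mono hp
  have h0 := one_le_top j
  linarith

theorem cc_div_W {q p : ℕ} (hq : q ≤ p) : cc q * (W p)⁻¹ ≤ 1 / (p + 1) := by
  have h1 := cc_le hq
  have h2 := W_ge p
  have h3 := pow_le_top p (k := p + 4) (by omega)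
  have h0 := one_le_top p
  have hp : (0 : ℝ) < p + 1 := by positivity
  rw [← div_eq_mul_inv, div_le_div_iff₀ (W_pos p) hp]
  nlinarith

end Pool.Agent.H67Z.Rd
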