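import Mathlib

set_option autoImplicit false

namespace Pool.Agent.H67Z.Rd

open Polynomial Finset

/-- sum of the moduli of the coefficients -/
noncomputable def l1 (p : ℂ[X]) : ℝ := ∑ i ∈ p.support, ‖p.coeff i‖

theorem l1_nonneg (p : ℂ[X]) : 0 ≤ l1 p := Finset.sum_nonneg fun _ _ => norm_nonneg _

theorem sum_le_l1 (p : ℂ[X]) (s : Finset ℕ) : ∑ i ∈ s, ‖p.coeff i‖ ≤ l1 p := by
  classical
  rw [l1, ← Finset.sum_filter_add_sum_filter_not s (fun i => i ∈ p.support)]
  have h1 : ∑ i ∈ s.filter (fun i => ¬ i ∈ p.support), ‖p.coeff i‖ = 0 := by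
    refine Finset.sum_eq_zero fun i hi => ?_
    rw [Polynomial.notMem_support_iff.1 (Finset.mem_filter.1 hi).2, norm_zero]
  rw [h1, add_zero]
  exact Finset.sum_le_sum_of_subset_of_nonneg (fun i hi => (Finset.mem_filter.1 hi).2)
    fun _ _ _ => norm_nonneg _

theorem l1_le_sum (p : ℂ[X]) (s : Finset ℕ) (h : p.support ⊆ s) :
    l1 p ≤ ∑ i ∈ s, ‖p.coeff i‖ :=
  Finset.sum_le_sum_of_subset_of_nonneg h fun _ _ _ => norm_nonneg _

theorem coeff_le_l1 (p : ℂ[X]) (i : ℕ) : ‖p.coeff i‖ ≤ l1 p := by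
  simpa using sum_le_l1 p {i}

theorem l1_zero : l1 0 = 0 := by simp [l1]

theorem l1_add (p q : ℂ[X]) : l1 (p + q) ≤ l1 p + l1 q := by
  refine le_trans ?_ (add_le_add (sum_le_l1 p (p + q).support) (sum_le_l1 q (p + q).support))
  rw [l1, ← Finset.sum_add_distrib]
  exact Finset.sum_le_sum fun i _ => by rw [coeff_add]; exact norm_add_le _ _

theorem l1_smul (c : ℂ) (p : ℂ[X]) : l1 (c • p) ≤ ‖c‖ * l1 p := by
  refine le_trans ?_ (mul_le_mul_of_nonneg_left (sum_le_l1 p (c • p).support) (norm_nonneg c))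
  rw [l1, Finset.mul_sum]
  exact Finset.sum_le_sum fun i _ => by rw [coeff_smul, smul_eq_mul, norm_mul]

theorem l1_neg (p : ℂ[X]) : l1 (-p) ≤ l1 p := by
  simpa using l1_smul (-1) p

theorem l1_sub (p q : ℂ[X]) : l1 (p - q) ≤ l1 p + l1 q := by
  rw [sub_eq_add_neg]
  exact (l1_add _ _).trans (add_le_add le_rfl (l1_neg q))

theorem l1_sum {ι : Type} (s : Finset ι) (f : ι → ℂ[X]) :
    l1 (∑ i ∈ s, f i) ≤ ∑ i ∈ s, l1 (f i) :=
  Finset.le_sum_of_subadditive l1 l1_zero.le l1_add s f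

theorem l1_X_pow (n : ℕ) : l1 (X ^ n) ≤ 1 := by
  refine (l1_le_sum _ {n} ?_).trans (by simp)
  intro i hi
  rw [mem_support_iff, coeff_X_pow] at hi
  by_contra h
  exact hi (if_neg (by simpa using h))

theorem l1_X_pow_mul (n : ℕ) (p : ℂ[X]) : l1 (X ^ n * p) ≤ l1 p := by
  refine (l1_le_sum _ (p.support.map (addRightEmbedding n)) ?_).trans ?_
  · intro i hi
    rw [mem_support_iff, coeff_X_pow_mul'] at hi
    split_ifs at hi with h
    · exact Finset.mem_map.2 ⟨i - n, mem_support_iff.2 hi, by simp; omega⟩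
    · exact absurd rfl hi
  · rw [Finset.sum_map, l1]
    refine le_of_eq (Finset.sum_congr rfl fun i _ => ?_)
    simp [coeff_X_pow_mul]

theorem le_l1_X_pow_mul (n : ℕ) (p : ℂ[X]) : l1 p ≤ l1 (X ^ n * p) := by
  refine le_trans ?_ (sum_le_l1 _ (p.support.map (addRightEmbedding n)))
  rw [Finset.sum_map, l1]
  refine le_of_eq (Finset.sum_congr rfl fun i _ => ?_)
  simp [coeff_X_pow_mul]

theorem as_sum_smul (p : ℂ[X]) : p = ∑ i ∈ p.support, p.coeff i • (X ^ i : ℂ[X]) := by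
  conv_lhs => rw [p.as_sum_support_C_mul_X_pow]
  exact Finset.sum_congr rfl fun i _ => by rw [smul_eq_C_mul]

theorem l1_mul (p q : ℂ[X]) : l1 (p * q) ≤ l1 p * l1 q := by
  conv_lhs => rw [as_sum_smul p, Finset.sum_mul]
  refine (l1_sum _ _).trans ?_
  rw [l1, Finset.sum_mul]
  refine Finset.sum_le_sum fun i _ => ?_
  rw [smul_mul_assoc]
  exact (l1_smul _ _).trans (mul_le_mul_of_nonneg_left (l1_X_pow_mul _ _) (norm_nonneg _))

theorem l1_one : l1 1 ≤ 1 := by simpa using l1_X_pow 0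

theorem l1_pow (p : ℂ[X]) {B : ℝ} (h : l1 p ≤ B) (n : ℕ) : l1 (p ^ n) ≤ B ^ n := by
  induction n with
  | zero => simpa using l1_one
  | succ n ih =>
    rw [pow_succ, pow_succ]
    exact (l1_mul _ _).trans (mul_le_mul ih h (l1_nonneg _) ((l1_nonneg _).trans ih))

theorem norm_map_le {Y : Type} [SeminormedAddCommGroup Y] [NormedSpace ℂ Y] (L : ℂ[X] →ₗ[ℂ] Y)
    (p : ℂ[X]) {B : ℝ} (h : ∀ t ∈ p.support, ‖L (X ^ t)‖ ≤ B) : ‖L p‖ ≤ l1 p * B := by
  conv_lhs => rw [as_sum_smul p, map_sum]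
  refine (norm_sum_le _ _).trans ?_
  rw [l1, Finset.sum_mul]
  refine Finset.sum_le_sum fun i hi => ?_
  rw [map_smul, norm_smul]
  exact mul_le_mul_of_nonneg_left (h i hi) (norm_nonneg _)

/-- Approximate division: a polynomial with a low coefficient that is not too small can be
multiplied to `X ^ n`, up to a small error and terms of high order. -/
theorem div_lemma (v : ℕ) (A : ℝ) (hA : 1 ≤ A) (n : ℕ) : ∀ δ η : ℝ, 0 < δ → 0 < η →
    ∃ C : ℝ, 1 ≤ C ∧ ∀ y : ℂ[X], l1 y ≤ A → (∃ i < n, δ ≤ ‖y.coeff i‖) →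
      ∃ q e w : ℂ[X], q * y = X ^ n + e + w ∧ l1 q ≤ C ∧ l1 e ≤ η ∧ l1 w ≤ C ∧
        X ^ (v + 1) ∣ w := by
  induction n with
  | zero => exact fun δ η _ _ => ⟨1, le_rfl, fun y _ ⟨i, hi, _⟩ => absurd hi (by omega)⟩
  | succ n ih =>
    intro δ η hδ hη
    set B : ℝ := 1 + δ⁻¹ * (2 * A) with hB
    have hB1 : 1 ≤ B := by
      have : 0 ≤ δ⁻¹ * (2 * A) := by positivity
      linarith
    set L : ℝ := δ⁻¹ * ((v + 1) * B ^ v) with hL
    have hL0 : 0 < L := by positivity
    set δ' : ℝ := min δ (η / (L * (n + 1))) with hδ'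
    have hδ'0 : 0 < δ' := lt_min hδ (by positivity)
    obtain ⟨C, hC1, hC⟩ := ih δ' η hδ'0 hη
    refine ⟨C + L + B ^ (v + 1), by
      have : 0 ≤ B ^ (v + 1) := by positivity
      linarith, fun y hy hex => ?_⟩
    have hBv : 0 ≤ B ^ (v + 1) := by positivity
    by_cases h1 : ∃ i < n, δ' ≤ ‖y.coeff i‖
    · obtain ⟨q, e, w, h2, h3, h4, h5, h6⟩ := hC y hy h1
      refine ⟨X * q, X * e, X * w, ?_, ?_, ?_, ?_, h6.mul_left _⟩
      · rw [mul_assoc, h2]; ring
      · have := l1_X_pow_mul 1 q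
        rw [pow_one] at this
        linarith
      · have := l1_X_pow_mul 1 e
        rw [pow_one] at this
        linarith
      · have := l1_X_pow_mul 1 w
        rw [pow_one] at this
        linarith
    · push Not at h1
      have hn : δ ≤ ‖y.coeff n‖ := by
        obtain ⟨i, hi, hi'⟩ := hex
        rcases Nat.lt_succ_iff_lt_or_eq.1 hi with h | h
        · exact absurd ((h1 i h).trans_le (min_le_left _ _)) (not_lt.2 hi')
        · rwa [h] at hi'
      set α : ℂ := y.coeff n with hα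
      have hα0 : α ≠ 0 := norm_pos_iff.1 (hδ.trans_le hn)
      have hαi : ‖α⁻¹‖ ≤ δ⁻¹ := by
        rw [norm_inv]
        exact inv_anti₀ hδ hn
      set low : ℂ[X] := ∑ i ∈ range n, y.coeff i • (X ^ i : ℂ[X]) with hlow
      have hlowc : ∀ i, low.coeff i = if i < n then y.coeff i else 0 := by
        intro i
        simp [hlow, finset_sum_coeff, coeff_X_pow]
      have hlow1 : l1 low ≤ ∑ i ∈ range n, ‖y.coeff i‖ := by
        refine (l1_sum _ _).trans (Finset.sum_le_sum fun i _ => ?_)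
        exact (l1_smul _ _).trans (mul_le_of_le_one_right (norm_nonneg _) (l1_X_pow i))
      have hlow2 : l1 low ≤ A := hlow1.trans ((sum_le_l1 y _).trans hy)
      have hlow3 : l1 low ≤ (n + 1) * δ' := by
        refine hlow1.trans ((Finset.sum_le_sum fun i hi =>
          (h1 i (Finset.mem_range.1 hi)).le).trans ?_)
        rw [Finset.sum_const, Finset.card_range, nsmul_eq_mul]
        nlinarith
      obtain ⟨u, hu⟩ : X ^ n ∣ y - low := by
        rw [X_pow_dvd_iff]
        intro d hd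
        rw [coeff_sub, hlowc, if_pos hd, sub_self]
      have hu0 : u.coeff 0 = α := by
        have := congrArg (fun p => p.coeff (0 + n)) hu
        simp only [coeff_X_pow_mul, coeff_sub, hlowc] at this
        simpa using this.symm
      have hu1 : l1 u ≤ 2 * A := by
        refine (le_l1_X_pow_mul n u).trans ?_
        rw [← hu]
        refine (l1_sub _ _).trans ?_
        linarith
      set ρ : ℂ[X] := 1 - α⁻¹ • u with hρ
      have hρ1 : l1 ρ ≤ B := by
        refine (l1_sub _ _).trans (add_le_add l1_one ((l1_smul _ _).trans ?_))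
        exact mul_le_mul hαi hu1 (l1_nonneg _) (by positivity)
      have hρX : X ∣ ρ := by
        rw [X_dvd_iff, hρ, coeff_sub, coeff_smul, hu0, smul_eq_mul, inv_mul_cancel₀ hα0]
        simp
      set S : ℂ[X] := ∑ k ∈ range (v + 1), ρ ^ k with hS
      have hS1 : l1 S ≤ (v + 1) * B ^ v := by
        refine (l1_sum _ _).trans ((Finset.sum_le_sum (g := fun _ => B ^ v) fun k hk => ?_).trans ?_)
        · exact (l1_pow _ hρ1 k).trans
            (pow_le_pow_right₀ hB1 (Nat.lt_succ_iff.1 (Finset.mem_range.1 hk)))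
        · rw [Finset.sum_const, Finset.card_range, nsmul_eq_mul]
          push_cast
          exact le_rfl
      have hq : l1 (α⁻¹ • (X * S)) ≤ L := by
        refine (l1_smul _ _).trans (mul_le_mul hαi ?_ (l1_nonneg _) (by positivity))
        have := l1_X_pow_mul 1 S
        rw [pow_one] at this
        exact this.trans hS1
      refine ⟨α⁻¹ • (X * S), α⁻¹ • (X * S) * low, -(X ^ (n + 1) * ρ ^ (v + 1)), ?_, by linarith,
        ?_, ?_, ?_⟩
      · have h2 : y = low + X ^ n * u := by rw [← hu]; ring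
        have h3 : α⁻¹ • u = 1 - ρ := by rw [hρ]; ring
        have h4 : S * (1 - ρ) = 1 - ρ ^ (v + 1) := geom_sum_mul_neg ρ (v + 1)
        have h5 : α⁻¹ • (X * S) * (X ^ n * u) = X ^ (n + 1) * (S * (α⁻¹ • u)) := by
          simp only [smul_eq_C_mul]
          ring
        conv_lhs => rw [h2, mul_add, h5, h3, h4]
        ring
      · refine (l1_mul _ _).trans ((mul_le_mul hq hlow3 (l1_nonneg _) hL0.le).trans ?_)
        have h2 : δ' ≤ η / (L * (n + 1)) := min_le_right _ _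
        rw [le_div_iff₀ (by positivity)] at h2
        linarith
      · refine (l1_neg _).trans ((l1_X_pow_mul _ _).trans ((l1_pow _ hρ1 _).trans ?_))
        linarith
      · exact ((pow_dvd_pow_of_dvd hρX _).mul_left _).neg_right

/-- A uniform constant for all exponents up to `v`. -/
theorem div_lemma' (v : ℕ) (A : ℝ) : ∃ C : ℝ, 1 ≤ C ∧ (1 ≤ A → ∀ n ≤ v, ∀ y : ℂ[X], l1 y ≤ A →
    (∃ i < n, A⁻¹ ≤ ‖y.coeff i‖) →
      ∃ q e w : ℂ[X], q * y = X ^ n + e + w ∧ l1 q ≤ C ∧ l1 e ≤ A⁻¹ ∧ l1 w ≤ C ∧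
        X ^ (v + 1) ∣ w) := by
  by_cases hA : 1 ≤ A
  · have hA0 : 0 < A⁻¹ := inv_pos.2 (by linarith)
    choose C hC1 hC using fun n => div_lemma v A hA n A⁻¹ A⁻¹ hA0 hA0
    have hle : ∀ n ≤ v, C n ≤ ∑ k ∈ range (v + 1), C k := fun n hn =>
      Finset.single_le_sum (f := C) (fun k _ => by linarith [hC1 k])
        (Finset.mem_range.2 (by omega))
    refine ⟨∑ k ∈ range (v + 1), C k, (hC1 0).trans (hle 0 (by omega)), fun _ n hn y hy hex => ?_⟩
    obtain ⟨q, e, w, h1, h2, h3, h4, h5⟩ := hC n y hy hex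
    exact ⟨q, e, w, h1, h2.trans (hle n hn), h3, h4.trans (hle n hn), h5⟩
  · exact ⟨1, le_rfl, fun h => absurd h hA⟩

end Pool.Agent.H67Z.Rd
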