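import Pool.Agent.H67Z.Rd.Op

set_option autoImplicit false

namespace Pool.Agent.H67Z.Rd

open Polynomial Finset

open Classical in
/-- columns of the approximate projection on the first `m` levels -/
noncomputable def Qf (m j : ℕ) : ℂ[X] :=
  if j ≤ v m then f j else if isW j ∧ ty j < m then -((μ j : ℂ) • X ^ (j - st j)) else 0

theorem a_le_v {m : ℕ} (hm : 1 ≤ m) : a m ≤ v m := by
  rw [v_eq]
  exact Nat.le_mul_of_pos_left _ hm

theorem l1_rsmul {c : ℝ} (hc : 0 ≤ c) (n : ℕ) : l1 ((c : ℂ) • (X ^ n : ℂ[X])) ≤ c := by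
  refine (l1_smul _ _).trans ?_
  rw [Complex.norm_real, Real.norm_of_nonneg hc]
  exact mul_le_of_le_one_right hc (l1_X_pow n)

theorem l1_Qf (m j : ℕ) : l1 (Qf m j) ≤ 4 * h (v m) ^ (2 * v m + 5) := by
  have h0 := one_le_top (v m)
  have h1 := pow_le_top (v m) (k := v m) (by omega)
  unfold Qf
  split_ifs with h2 h3
  · have h4 := d_le h2
    have h5 := l1_rsmul (d_pos j).le j
    by_cases hj : isW j
    · rw [f_W hj]
      refine (l1_sub _ _).trans ?_
      have h6 := l1_rsmul (μ_pos j).le (j - st j)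
      have h7 := W_facts hj
      have h8 := μ_le (p := v m) hj (by omega)
      linarith
    · rw [f_not hj]
      linarith
  · refine (l1_neg _).trans ?_
    have h6 := l1_rsmul (μ_pos j).le (j - st j)
    have h7 := v_lt_a h3.2
    have h9 := a_le_v (m := m) (by omega)
    have h8 := μ_le (p := v m) h3.1 (by omega)
    linarith
  · rw [l1_zero]
    linarith

theorem exists_ψ (m i : ℕ) : ∃ ψ : L1 →L[ℂ] ℂ, ∀ j, ψ (e j) = (Qf m j).coeff i :=
  exists_col _ fun j => (coeff_le_l1 _ i).trans (l1_Qf m j)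

/-- coefficient functionals -/
noncomputable def ψ (m i : ℕ) : L1 →L[ℂ] ℂ := Classical.choose (exists_ψ m i)

theorem ψ_e (m i j : ℕ) : ψ m i (e j) = (Qf m j).coeff i := Classical.choose_spec (exists_ψ m i) j

theorem norm_ψ (m i : ℕ) (x : L1) : ‖ψ m i x‖ ≤ 4 * h (v m) ^ (2 * v m + 5) * ‖x‖ :=
  norm_le_of_col _ (fun j => by rw [ψ_e]; exact (coeff_le_l1 _ i).trans (l1_Qf m j)) x

/-- truncation -/
noncomputable def tr (N : ℕ) (p : ℂ[X]) : ℂ[X] := ∑ i ∈ range N, p.coeff i • X ^ i

theorem tr_of_lt {N : ℕ} {p : ℂ[X]} (hp : p.natDegree < N) : tr N p = p := by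
  conv_rhs => rw [p.as_sum_range_C_mul_X_pow' hp]
  simp only [tr, smul_eq_C_mul]

theorem tr_sub (N : ℕ) (p q : ℂ[X]) : tr N (p - q) = tr N p - tr N q := by
  simp only [tr, coeff_sub, sub_smul, Finset.sum_sub_distrib]

theorem tr_high {N j : ℕ} (c : ℂ) (hj : N ≤ j) : tr N (c • X ^ j) = 0 := by
  refine Finset.sum_eq_zero fun i hi => ?_
  rw [coeff_smul, coeff_X_pow, if_neg (by have := Finset.mem_range.1 hi; omega), smul_zero,
    zero_smul]

theorem natDegree_low (c : ℂ) (i : ℕ) : (c • (X ^ i : ℂ[X])).natDegree ≤ i :=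
  (natDegree_smul_le _ _).trans (natDegree_X_pow_le i)

theorem natDegree_f (j : ℕ) : (f j).natDegree = j := natDegree_eq_of_degree_eq_some (degree_f j)

/-- the polynomial attached to a vector -/
noncomputable def yy (N m : ℕ) (x : L1) : ℂ[X] := ∑ i ∈ range N, ψ m i x • X ^ i

/-- the finite rank operators -/
noncomputable def R (N m : ℕ) : L1 →L[ℂ] L1 := ∑ i ∈ range N, (ψ m i).smulRight (ι (X ^ i))

theorem R_apply (N m : ℕ) (x : L1) : R N m x = ι (yy N m x) := by
  simp [R, yy, _root_.sum_apply]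

theorem R_e (N m j : ℕ) : R N m (e j) = ι (tr N (Qf m j)) := by
  simp only [R_apply, yy, ψ_e, tr]

theorem coeff_yy {N m i : ℕ} (x : L1) (hi : i < N) : (yy N m x).coeff i = ψ m i x := by
  simp [yy, coeff_X_pow, hi]

theorem l1_yy {N m : ℕ} {x : L1} {B : ℝ} (hB : ∀ i < N, ‖ψ m i x‖ ≤ B) :
    l1 (yy N m x) ≤ N * B := by
  refine (l1_sum _ _).trans ?_
  refine (Finset.sum_le_card_nsmul _ _ B fun i hi => ?_).trans (by simp)
  exact (l1_smul _ _).trans ((mul_le_of_le_one_right (norm_nonneg _) (l1_X_pow i)).trans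
    (hB i (Finset.mem_range.1 hi)))

theorem l1_yy_le (m : ℕ) {x : L1} (hx : ‖x‖ ≤ 1) : l1 (yy (v m + 1) m x) ≤ W (v m) := by
  have h0 := one_le_top (v m)
  refine (l1_yy (B := 4 * h (v m) ^ (2 * v m + 5)) fun i _ => (norm_ψ m i x).trans
    (mul_le_of_le_one_right (by linarith) hx)).trans ?_
  have := W_ge (v m)
  push_cast
  linarith

theorem norm_ι_le (p : ℂ[X]) : ‖ι p‖ ≤ l1 p := by
  simpa using norm_map_le ι p (B := 1) fun t _ => norm_u_le_one t

theorem natDegree_Qf (m j : ℕ) : (Qf m j).natDegree ≤ v m := by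
  unfold Qf
  split_ifs with h2 h3
  · rw [natDegree_f]; exact h2
  · rw [natDegree_neg]
    have h1 := W_facts h3.1
    have h4 : v (ty j) ≤ v m := v_mono h3.2.le
    exact (natDegree_low _ _).trans (by omega)
  · simp

theorem tail_bound {m t : ℕ} (ht : a m ≤ t) (x : L1) :
    ‖(T ^ t) (x - R (v m + 1) m x)‖ ≤ 2 * (h (v m + 1) ^ 2)⁻¹ * ‖x‖ := by
  have h0 : 0 < h (v m + 1) ^ 2 := pow_pos (h_pos _) _
  have h1 : ∀ p, v m < p → ∀ l, 2 ≤ l → (h p ^ l)⁻¹ ≤ (h (v m + 1) ^ 2)⁻¹ := fun p hp l hl =>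
    inv_anti₀ h0 (h_pow_le hp hl)
  have h4 : 4 ≤ a m := by unfold a; omega
  refine norm_le_of_col ((T ^ t) ∘L (ContinuousLinearMap.id ℂ L1 - R (v m + 1) m))
    (fun j => ?_) x
  have h2 : ((T ^ t) ∘L (ContinuousLinearMap.id ℂ L1 - R (v m + 1) m)) (e j) =
      ι (X ^ t * (f j - Qf m j)) := by
    rw [← T_pow_ι, map_sub, ι_f]
    rw [ContinuousLinearMap.comp_apply, _root_.sub_apply, ContinuousLinearMap.id_apply, R_e,
      tr_of_lt (Nat.lt_succ_of_le (natDegree_Qf m j))]
  rw [h2]
  unfold Qf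
  split_ifs with h3 h5
  · rw [sub_self, mul_zero, map_zero, norm_zero]
    positivity
  · have h6 := W_facts h5.1
    have h7 := v_lt_a h5.2
    have h8 : j < st (j + t) := lt_st (by omega) (Or.inr (by omega))
    have h9 : X ^ t * (f j - -((μ j : ℂ) • X ^ (j - st j))) = (d j : ℂ) • X ^ (j + t) := by
      rw [f_W h5.1]
      simp only [smul_eq_C_mul]
      ring
    rw [h9]
    have := (far_d h8).trans (h1 _ (by omega) 2 le_rfl)
    have := inv_pos.2 h0
    linarith
  · rw [sub_zero]
    have h6 : isW j → v m ≤ v (ty j) := fun hj => v_mono (not_lt.1 fun hc => h5 ⟨hj, hc⟩)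
    exact shift_bound (by omega) (fun hj _ => h1 _ (Nat.lt_succ_of_le (h6 hj)) t (by omega))
      (fun p hp _ => h1 p (by omega) 2 le_rfl)
      fun hj p hp _ => h1 p (lt_of_le_of_lt (h6 hj) hp) 2 le_rfl

/-- the cut position in level `m` -/
def NN (n m : ℕ) : ℕ := (m - n) * a m

theorem NN_le (n m : ℕ) : NN n m ≤ v m := by
  rw [NN, v_eq]
  exact Nat.mul_le_mul_right _ (by omega)

theorem a_le_NN {n m : ℕ} (hm : n < m) : a m ≤ NN n m :=
  Nat.le_mul_of_pos_left _ (by omega)

theorem R_low {n m j : ℕ} (hj : j < NN n m) : R (NN n m) m (e j) = e j := by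
  have := NN_le n m
  rw [R_e, Qf, if_pos (by omega), tr_of_lt (by rwa [natDegree_f]), ι_f]

open Classical in
theorem R_high {n m j : ℕ} (hm : n < m) (hj : NN n m ≤ j) : R (NN n m) m (e j) =
    if isW j ∧ ty j < m then -((μ j : ℂ) • ι (X ^ (j - st j))) else 0 := by
  have h1 := a_le_NN hm
  have h2 : isW j ∧ ty j < m → ∀ c : ℂ, (c • (X ^ (j - st j) : ℂ[X])).natDegree < NN n m := by
    intro h3 c
    have h4 := W_facts h3.1
    have h5 := v_lt_a h3.2
    exact lt_of_le_of_lt (natDegree_low _ _) (by omega)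
  rw [R_e, Qf]
  by_cases h3 : j ≤ v m
  · rw [if_pos h3]
    by_cases hW : isW j
    · have h4 : isW j ∧ ty j < m := ⟨hW, lt_of_lt_of_le (W_facts hW).2.2.2.1 (lvl_le h3)⟩
      rw [if_pos h4, f_W hW, tr_sub, tr_high _ hj, tr_of_lt (h2 h4 _), zero_sub, map_neg,
        map_smul]
    · rw [if_neg fun hc => hW hc.1, f_not hW, tr_high _ hj, map_zero]
  · rw [if_neg h3]
    split_ifs with h4
    · rw [tr_of_lt (by rw [natDegree_neg]; exact h2 h4 _), map_neg, map_smul]
    · simp [tr]

theorem small_aux {m : ℕ} (hm : 1 ≤ m) :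
    h (v m) ^ v m * (v m * (W (v m))⁻¹) ≤ (1 / 2) ^ v m * (1 / m) := by
  set p := v m with hp
  have h0 := h_pos p
  have h1 : (m : ℝ) ≤ h p := le_trans (by exact_mod_cast le_v m) (le_h p)
  have h2 : (0 : ℝ) < m := by exact_mod_cast hm
  have h3 := pow_le_top p (k := p + 1) (by omega)
  have h4 : (0 : ℝ) < 2 ^ p := by positivity
  have h5 : (0 : ℝ) ≤ p := Nat.cast_nonneg p
  have h6 : 0 < h p ^ p := pow_pos h0 _
  rw [← mul_assoc, ← div_eq_mul_inv, one_div_pow, _root_.div_mul_div_comm,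
    div_le_div_iff₀ (W_pos p) (by positivity), one_mul, one_mul]
  have h7 : h p ^ p * m ≤ h p ^ (2 * p + 5) := by
    rw [_root_.pow_succ] at h3
    nlinarith
  calc h p ^ p * p * (2 ^ p * m) = p * 2 ^ p * (h p ^ p * m) := by ring
    _ ≤ ((p + 1) * 2 ^ (p + 2)) * h p ^ (2 * p + 5) := by
        refine mul_le_mul ?_ h7 (by positivity) (by positivity)
        rw [pow_add]
        nlinarith
    _ = W p := rfl

theorem eq_zero_of_le_div {c K : ℝ} {n : ℕ} (hc : 0 ≤ c) (h : ∀ m : ℕ, n < m → c ≤ K * (1 / m)) :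
    c = 0 := by
  refine le_antisymm ?_ hc
  have h1 := (tendsto_one_div_atTop_nhds_zero_nat (𝕜 := ℝ)).const_mul K
  rw [mul_zero] at h1
  exact ge_of_tendsto h1 ((Filter.eventually_gt_atTop n).mono h)

theorem lower_bound {x : L1} (hx : x ≠ 0) (n : ℕ) :
    ∃ m, n < m ∧ ∃ i < NN n m, (W (v m))⁻¹ ≤ ‖ψ m i x‖ := by
  by_contra hcon
  push Not at hcon
  have hR : ∀ m, n < m → ‖R (NN n m) m x‖ ≤ v m * (W (v m))⁻¹ := by
    intro m hm
    rw [R_apply]
    refine (norm_ι_le _).trans ((l1_yy fun i hi => (hcon m hm i hi).le).trans ?_)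
    exact mul_le_mul_of_nonneg_right (by exact_mod_cast NN_le n m) (inv_pos.2 (W_pos _)).le
  have hR' : ∀ m, n < m → ‖R (NN n m) m x‖ ≤ 1 * (1 / m) := by
    intro m hm
    refine (hR m hm).trans (le_trans ?_ ((small_aux (m := m) (by omega)).trans ?_))
    · exact le_mul_of_one_le_left (mul_nonneg (Nat.cast_nonneg _) (inv_pos.2 (W_pos _)).le)
        (one_le_pow₀ (one_le_h _))
    · exact mul_le_mul_of_nonneg_right (pow_le_one₀ (by norm_num) (by norm_num)) (by positivity)
  have step1 : ∀ m, n < m → ∀ t, v (m - 1) < t → t < NN n m → ‖x t‖ ≤ v m * (W (v m))⁻¹ := by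
    intro m hm t h1 h2
    have h3 : ev t ∘L R (NN n m) m = ev t := by
      refine ext_col fun j => ?_
      rw [ContinuousLinearMap.comp_apply]
      by_cases hj : j < NN n m
      · rw [R_low hj]
      · rw [R_high hm (not_lt.1 hj), ev_apply t (e j), e_apply, if_neg (show t ≠ j by omega)]
        split_ifs with h4
        · have h5 := W_facts h4.1
          have h6 : v (ty j) ≤ v (m - 1) := v_mono (by omega)
          rw [map_neg, map_smul, ev_apply, u_supp _ t (by omega), smul_zero, neg_zero]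
        · exact map_zero _
    have h4 : x t = R (NN n m) m x t := (DFunLike.congr_fun h3 x).symm
    rw [h4]
    exact (norm_apply_le _ t).trans (hR m hm)
  have step2 : ∀ t, v n < t → x t = 0 := by
    intro t ht
    refine norm_eq_zero.1 (eq_zero_of_le_div (K := 3) (n := n + t + 1) (norm_nonneg _)
      fun m hm => ?_)
    have hnm : n < m := by omega
    have h1 := a_le_NN hnm
    have h2 : 2 * v t + 4 ≤ a m := v_lt_a (by omega)
    have h3 := le_v t
    have hm0 : (0 : ℝ) < m := by exact_mod_cast (by omega : 0 < m)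
    have h4 : ‖(ev t ∘L R (NN n m) m - ev t) x‖ ≤ 2 * (1 / m) := by
      refine (hasSum_col (ev t ∘L R (NN n m) m - ev t) x).norm_le_of_bounded
        (hasSum_geometric_two.mul_right (1 / (m : ℝ))) fun j => ?_
      have hz : (0 : ℝ) ≤ (1 / 2) ^ j * (1 / m) := by positivity
      rw [_root_.sub_apply, ContinuousLinearMap.comp_apply]
      by_cases hj : j < NN n m
      · rw [R_low hj, sub_self, smul_zero, norm_zero]
        exact hz
      rw [R_high hnm (not_lt.1 hj), ev_apply t (e j), e_apply, if_neg (show t ≠ j by omega),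
        sub_zero]
      split_ifs with h5
      swap
      · rw [map_zero, smul_zero, norm_zero]
        exact hz
      have h6 := W_facts h5.1
      by_cases h7 : j - st j < t
      · rw [map_neg, map_smul, ev_apply, u_supp _ t h7, smul_zero, neg_zero, smul_zero, norm_zero]
        exact hz
      have h8 : n < ty j := by
        by_contra hc
        have : v (ty j) ≤ v n := v_mono (not_lt.1 hc)
        omega
      have h9 : m ≤ lvl j := by
        have : 2 * v (m - 1) + 4 ≤ a m := v_lt_a (by omega)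
        have : m - 1 < lvl j := lt_lvl (by omega)
        omega
      have h10 : 2 * v (ty j) + 4 ≤ a (lvl j) := v_lt_a h6.2.2.2.1
      have h11 : j < NN n (lvl j) := by
        have e1 : (lvl j - ty j + 1) * a (lvl j) ≤ NN n (lvl j) :=
          Nat.mul_le_mul_right _ (by omega)
        rw [add_mul, ← h6.2.2.2.2.2] at e1
        omega
      have h12 := step1 (lvl j) (by omega) j (by omega) h11
      have h13 := le_v_lvl j
      have h14 : μ j ≤ h (v (lvl j)) ^ v (lvl j) := μ_le h5.1 (by omega)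
      have h15 : ‖ev t (-((μ j : ℂ) • ι (X ^ (j - st j))))‖ ≤ μ j := by
        rw [ev_apply]
        refine (norm_apply_le _ t).trans ?_
        rw [norm_neg, norm_rsmul (μ_pos j).le]
        exact mul_le_of_le_one_right (μ_pos j).le (norm_u_le_one _)
      rw [norm_smul, mul_comm]
      refine (mul_le_mul (h15.trans h14) h12 (norm_nonneg _) (pow_pos (h_pos _) _).le).trans ?_
      refine (small_aux (m := lvl j) (by omega)).trans ?_
      refine mul_le_mul (pow_le_pow_of_le_one (by norm_num) (by norm_num) h13) ?_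
        (by positivity) (by positivity)
      exact one_div_le_one_div_of_le hm0 (by exact_mod_cast h9)
    have h5 : x t = R (NN n m) m x t - (ev t ∘L R (NN n m) m - ev t) x := by
      rw [_root_.sub_apply, ContinuousLinearMap.comp_apply, ev_apply, ev_apply, sub_sub_cancel]
    rw [h5]
    refine (norm_sub_le _ _).trans ?_
    have := (norm_apply_le _ t).trans (hR' m hnm)
    linarith
  refine hx (norm_eq_zero.1 (eq_zero_of_le_div (K := 1) (n := n) (norm_nonneg _) fun m hm => ?_))
  have h1 : R (NN n m) m x = x := by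
    refine (hasSum_col (R (NN n m) m) x).unique ?_
    convert hasSum_e x using 2 with j
    by_cases hj : j < NN n m
    · rw [R_low hj]
    · have h2 := a_le_NN hm
      have h3 := v_lt_a hm
      rw [step2 j (by omega), zero_smul, zero_smul]
  have := hR' m hm
  rwa [h1] at this

end Pool.Agent.H67Z.Rd
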